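import Pool.Agent.H852Z.Jou.Curve

set_option autoImplicit false

namespace Pool.Agent.H852Z.Jou

open WeierstrassCurve WeierstrassCurve.Projective Matrix

variable {K : Type} [Field K]

abbrev Mat (K : Type) := Matrix (Fin 3) (Fin 3) K

/-- `M` is a projection onto the line of the point `P`. -/
def Over (M : Mat K) (P : Pt K) : Prop := ∃ v w : Fin 3 → K, Rep v P ∧ w ⬝ᵥ v = 1 ∧ M = vecMulVec v w

lemma Over.mulVec {M : Mat K} {P : Pt K} (h : Over M P) {u : Fin 3 → K} (hu : Rep u P) :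
    M *ᵥ u = u := by
  obtain ⟨v, w, hv, hw, rfl⟩ := h
  obtain ⟨a, _, rfl⟩ := hu.exists_smul hv
  rw [mulVec_smul, vecMulVec_mulVec, hw]
  simp

lemma Over.mul {M M' : Mat K} {P : Pt K} (h : Over M P) (h' : Over M' P) : M * M' = M' := by
  obtain ⟨v, w, hv, hw, rfl⟩ := h'
  rw [mul_vecMulVec, h.mulVec hv]

lemma Over.of_fixed {M : Mat K} {P : Pt K} (h : Over M P) {u : Fin 3 → K} (hu0 : u ≠ 0)
    (hu : M *ᵥ u = u) : Rep u P := by
  obtain ⟨v, w, hv, hw, rfl⟩ := h
  rw [vecMulVec_mulVec] at hu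
  have h1 : u = (w ⬝ᵥ u) • v := by
    funext i
    have := congrFun hu i
    simp at this
    rw [← this]
    simp [this, mul_comm]
  have h2 : w ⬝ᵥ u ≠ 0 := by
    intro h0
    rw [h0, zero_smul] at h1
    exact hu0 h1
  rw [h1]
  exact hv.smul h2

lemma Rep.ne_zero [CharZero K] {v : Fin 3 → K} {P : Pt K} (h : Rep v P) : v ≠ 0 :=
  ((nonsing_iff v).mp h.nonsing).2

lemma Over.unique [CharZero K] {M : Mat K} {P Q : Pt K} (h : Over M P) (h' : Over M Q) : P = Q := by
  obtain ⟨v, hv⟩ := exists_rep P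
  exact hv.unique (h'.of_fixed hv.ne_zero (h.mulVec hv))

@[ext]
structure Z (K : Type) [Field K] where
  M : Mat K
  A : Mat K
  B : Mat K
  hM : ∃ P, Over M P
  hA : M * A * (1 - M) = 0

noncomputable def Z.pt (z : Z K) : Pt K := z.hM.choose

lemma Z.over (z : Z K) : Over z.M z.pt := z.hM.choose_spec

lemma Z.pt_eq [CharZero K] (z : Z K) {P : Pt K} (h : Over z.M P) : z.pt = P := z.over.unique h

def decM (M0 C : Mat K) : Mat K := M0 + M0 * C * (1 - M0)
def decA (M0 C : Mat K) : Mat K :=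
  (1 - M0 * C * (1 - M0)) * (C - M0 * C * (1 - M0)) * (1 + M0 * C * (1 - M0))
def enc (M0 M A : Mat K) : Mat K := (1 + (M - M0)) * A * (1 - (M - M0)) + (M - M0)

lemma over_decM {M0 : Mat K} {P : Pt K} (h : Over M0 P) (C : Mat K) : Over (decM M0 C) P := by
  have hfix := fun u hu => h.mulVec (u := u) hu
  obtain ⟨v, w, hv, hw, hM⟩ := h
  refine ⟨v, w ᵥ* (1 + C * (1 - M0)), hv, ?_, ?_⟩
  · rw [← dotProduct_mulVec, add_mulVec, one_mulVec, ← mulVec_mulVec, sub_mulVec, one_mulVec,
      hfix v hv, sub_self, mulVec_zero, add_zero, hw]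
  · rw [← vecMulVec_mul, ← hM, decM, mul_add, mul_one, Matrix.mul_assoc]

section ring
variable {R : Type} [Ring R]

lemma r1 {m c : R} (h : m * m = m) : (m * c * (1 - m)) * (m * c * (1 - m)) = 0 := by
  have : (1 - m) * m = 0 := by rw [sub_mul, one_mul, h, sub_self]
  calc _ = m * c * ((1 - m) * m) * c * (1 - m) := by noncomm_ring
    _ = 0 := by rw [this]; simp

lemma r2 {m c : R} (h : m * m = m) : m * (m * c * (1 - m)) = m * c * (1 - m) := by
  rw [← mul_assoc, ← mul_assoc, h]

lemma r3 {m c : R} (h : m * m = m) : (m * c * (1 - m)) * m = 0 := by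
  have : (1 - m) * m = 0 := by rw [sub_mul, one_mul, h, sub_self]
  rw [mul_assoc, this, mul_zero]

lemma r_decA {m c n : R} (h : m * m = m) (hn : n = m * c * (1 - m)) :
    (m + n) * ((1 - n) * (c - n) * (1 + n)) * (1 - (m + n)) = 0 := by
  have h1 : n * n = 0 := by rw [hn]; exact r1 h
  have h2 : m * n = n := by rw [hn]; exact r2 h
  have h3 : n * m = 0 := by rw [hn]; exact r3 h
  have a1 : (m + n) * (1 - n) = m := by
    calc _ = m + n - m * n - n * n := by noncomm_ring
      _ = m := by rw [h1, h2]; abel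
  have a2 : (1 + n) * (1 - (m + n)) = 1 - m := by
    calc _ = 1 - m - n * m - n * n := by noncomm_ring
      _ = 1 - m := by rw [h1, h3]; abel
  calc _ = ((m + n) * (1 - n)) * (c - n) * ((1 + n) * (1 - (m + n))) := by noncomm_ring
    _ = m * c * (1 - m) - (m * n - m * (n * m)) := by rw [a1, a2]; noncomm_ring
    _ = 0 := by rw [h2, h3, ← hn]; simp

lemma r_enc_dec {c n : R} (h1 : n * n = 0) :
    (1 + n) * ((1 - n) * (c - n) * (1 + n)) * (1 - n) + n = c := by
  have a1 : (1 + n) * (1 - n) = 1 := by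
    calc _ = 1 - n * n := by noncomm_ring
      _ = 1 := by rw [h1, sub_zero]
  calc _ = ((1 + n) * (1 - n)) * (c - n) * ((1 + n) * (1 - n)) + n := by noncomm_ring
    _ = c := by rw [a1]; simp

lemma r_dec_enc {m m' a : R} (h00 : m * m = m) (h01 : m * m' = m') (h10 : m' * m = m)
    (ha : m' * a * (1 - m') = 0) :
    m * ((1 + (m' - m)) * a * (1 - (m' - m)) + (m' - m)) * (1 - m) = m' - m := by
  have a1 : m * (1 + (m' - m)) = m' := by
    calc _ = m + m * m' - m * m := by noncomm_ring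
      _ = m' := by rw [h00, h01]; abel
  have a2 : (1 - (m' - m)) * (1 - m) = 1 - m' := by
    calc _ = 1 - m' + m' * m - m * m := by noncomm_ring
      _ = 1 - m' := by rw [h00, h10]; abel
  have a3 : m * (m' - m) * (1 - m) = m' - m := by
    calc _ = m * m' - m * m - m * (m' * m) + m * (m * m) := by noncomm_ring
      _ = m' - m := by rw [h10, h00, h00, h01]; abel
  calc _ = (m * (1 + (m' - m))) * a * ((1 - (m' - m)) * (1 - m)) + m * (m' - m) * (1 - m) := by
        noncomm_ring
    _ = m' - m := by rw [a1, a2, a3, ha, zero_add]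

lemma r_dec_enc2 {n a : R} (h1 : n * n = 0) :
    (1 - n) * ((1 + n) * a * (1 - n) + n - n) * (1 + n) = a := by
  have a1 : (1 - n) * (1 + n) = 1 := by
    calc _ = 1 - n * n := by noncomm_ring
      _ = 1 := by rw [h1, sub_zero]
  calc _ = ((1 - n) * (1 + n)) * a * ((1 - n) * (1 + n)) := by noncomm_ring
    _ = a := by rw [a1]; simp

end ring

lemma decA_cond {M0 : Mat K} {P : Pt K} (h : Over M0 P) (C : Mat K) :
    decM M0 C * decA M0 C * (1 - decM M0 C) = 0 := r_decA (h.mul h) rfl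

lemma enc_dec {M0 : Mat K} {P : Pt K} (h : Over M0 P) (C : Mat K) :
    enc M0 (decM M0 C) (decA M0 C) = C := by
  unfold enc decM decA
  rw [add_sub_cancel_left]
  exact r_enc_dec (r1 (h.mul h))

lemma dec_enc_M {M0 M A : Mat K} {P : Pt K} (h : Over M0 P) (h' : Over M P)
    (hA : M * A * (1 - M) = 0) : decM M0 (enc M0 M A) = M := by
  unfold decM enc
  rw [r_dec_enc (h.mul h) (h.mul h') (h'.mul h) hA]
  abel

lemma dec_enc_A {M0 M A : Mat K} {P : Pt K} (h : Over M0 P) (h' : Over M P)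
    (hA : M * A * (1 - M) = 0) : decA M0 (enc M0 M A) = A := by
  unfold decA enc
  rw [r_dec_enc (h.mul h) (h.mul h') (h'.mul h) hA]
  apply r_dec_enc2
  calc (M - M0) * (M - M0) = M * M - M * M0 - M0 * M + M0 * M0 := by noncomm_ring
    _ = 0 := by rw [h.mul h, h.mul h', h'.mul h, h'.mul h']; abel

def mkDec (M0 : Mat K) (h : ∃ P, Over M0 P) (C B : Mat K) : Z K :=
  ⟨decM M0 C, decA M0 C, B, h.imp fun _ hP => over_decM hP C, decA_cond h.choose_spec C⟩

lemma mkDec_enc {M0 : Mat K} (h : ∃ P, Over M0 P) (z : Z K) (h0 : Over M0 z.pt) :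
    mkDec M0 h (enc M0 z.M z.A) z.B = z := by
  ext1
  · exact dec_enc_M h0 z.over z.hA
  · exact dec_enc_A h0 z.over z.hA
  · rfl

/-! Polynomial matrix-valued maps -/

def PM {T : Type} (S : Subalgebra K (T → K)) (F : T → Mat K) : Prop :=
  ∀ i j, (fun t => F t i j) ∈ S

section PM
variable {T : Type} {S : Subalgebra K (T → K)} {F G : T → Mat K}

lemma PM.const (C : Mat K) : PM S (fun _ => C) := fun i j => S.algebraMap_mem (C i j)

lemma PM.add (hF : PM S F) (hG : PM S G) : PM S (fun t => F t + G t) :=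
  fun i j => S.add_mem (hF i j) (hG i j)

lemma PM.sub (hF : PM S F) (hG : PM S G) : PM S (fun t => F t - G t) :=
  fun i j => S.sub_mem (hF i j) (hG i j)

lemma PM.mul (hF : PM S F) (hG : PM S G) : PM S (fun t => F t * G t) := by
  intro i j
  have : (fun t => (F t * G t) i j) = ∑ k, (fun t => F t i k) * (fun t => G t k j) := by
    funext t
    simp [Matrix.mul_apply]
  rw [this]
  exact S.sum_mem fun k _ => S.mul_mem (hF i k) (hG k j)

lemma PM.smul {l : T → K} (hl : l ∈ S) (hF : PM S F) : PM S (fun t => l t • F t) :=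
  fun i j => S.mul_mem hl (hF i j)

lemma PM.decM (hF : PM S F) (hG : PM S G) : PM S (fun t => decM (F t) (G t)) :=
  hF.add ((hF.mul hG).mul ((PM.const 1).sub hF))

lemma PM.decA (hF : PM S F) (hG : PM S G) : PM S (fun t => decA (F t) (G t)) := by
  have hN := (hF.mul hG).mul ((PM.const 1).sub hF)
  exact (((PM.const 1).sub hN).mul (hG.sub hN)).mul ((PM.const 1).add hN)

lemma PM.enc {H : T → Mat K} (hF : PM S F) (hG : PM S G) (hH : PM S H) :
    PM S (fun t => enc (F t) (G t) (H t)) := by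
  have hN := hG.sub hF
  exact ((((PM.const 1).add hN).mul hH).mul ((PM.const 1).sub hN)).add hN

lemma addXYZ_mem {p q : T → Fin 3 → K} (hp : ∀ i, (fun t => p t i) ∈ S)
    (hq : ∀ i, (fun t => q t i) ∈ S) (i : Fin 3) :
    (fun t => (Wc K).addXYZ (p t) (q t) i) ∈ S := by
  let p' : Fin 3 → S := fun i => ⟨_, hp i⟩
  let q' : Fin 3 → S := fun i => ⟨_, hq i⟩
  have : (fun t => (Wc K).addXYZ (p t) (q t) i) = ((Wc S).addXYZ p' q' i : S) := by
    funext t
    let e : S →+* K := (Pi.evalRingHom (fun _ : T => K) t).comp S.val.toRingHom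
    have h := map_addXYZ (W' := Wc S) e p' q'
    rw [Wc_map] at h
    exact congrFun h i
  rw [this]
  exact Subtype.property _

end PM

def coord : Fin 3 × Fin 3 × Fin 3 → Z K → K := fun x z => ![z.M, z.A, z.B] x.1 x.2.1 x.2.2

def RZ (K : Type) [Field K] : Subalgebra K (Z K → K) := Algebra.adjoin K (Set.range coord)

lemma coord_mem (x : Fin 3 × Fin 3 × Fin 3) : coord x ∈ RZ K := Algebra.subset_adjoin ⟨x, rfl⟩

lemma PM_M : PM (RZ K) (fun z => z.M) := fun i j => coord_mem (0, i, j)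
lemma PM_A : PM (RZ K) (fun z => z.A) := fun i j => coord_mem (1, i, j)
lemma PM_B : PM (RZ K) (fun z => z.B) := fun i j => coord_mem (2, i, j)

/-- polynomial maps to `Z` -/
def PZ {T : Type} (S : Subalgebra K (T → K)) (f : T → Z K) : Prop :=
  PM S (fun t => (f t).M) ∧ PM S (fun t => (f t).A) ∧ PM S (fun t => (f t).B)

lemma PZ.comp_mem {T : Type} {S : Subalgebra K (T → K)} {f : T → Z K} (hf : PZ S f)
    {g : Z K → K} (hg : g ∈ RZ K) : (fun t => g (f t)) ∈ S := by
  induction hg using Algebra.adjoin_induction with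
  | mem x hx =>
    obtain ⟨⟨a, i, j⟩, rfl⟩ := hx
    fin_cases a
    · exact hf.1 i j
    · exact hf.2.1 i j
    · exact hf.2.2 i j
  | algebraMap r => exact S.algebraMap_mem r
  | add x y _ _ hx hy => exact S.add_mem hx hy
  | mul x y _ _ hx hy => exact S.mul_mem hx hy

lemma PM.comp {T : Type} {S : Subalgebra K (T → K)} {f : T → Z K} {F : Z K → Mat K}
    (hF : PM (RZ K) F) (hf : PZ S f) : PM S (fun t => F (f t)) :=
  fun i j => hf.comp_mem (hF i j)

lemma PZ.comp {T : Type} {S : Subalgebra K (T → K)} {f : T → Z K} {F : Z K → Z K}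
    (hF : PZ (RZ K) F) (hf : PZ S f) : PZ S (fun t => F (f t)) :=
  ⟨hF.1.comp hf, hF.2.1.comp hf, hF.2.2.comp hf⟩

lemma PZ_mkDec {T : Type} {S : Subalgebra K (T → K)} {M0 C B : T → Mat K}
    (h : ∀ t, ∃ P, Over (M0 t) P) (h0 : PM S M0) (hC : PM S C) (hB : PM S B) :
    PZ S (fun t => mkDec (M0 t) (h t) (C t) (B t)) := ⟨h0.decM hC, h0.decA hC, hB⟩

instance : Algebra.FiniteType K (RZ K) := by
  rw [← Subalgebra.fg_iff_finiteType]
  exact Subalgebra.fg_def.mpr ⟨_, Set.finite_range _, rfl⟩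

def ev (z : Z K) : RZ K →ₐ[K] K := (Pi.evalAlgHom K (fun _ : Z K => K) z).comp (RZ K).val

@[simp] lemma ev_apply (z : Z K) (f : RZ K) : ev z f = f.1 z := rfl

lemma ev_injective : Function.Injective (ev (K := K)) := by
  intro z z' h
  have := fun x => DFunLike.congr_fun h ⟨coord x, coord_mem x⟩
  ext i j
  · exact this (0, i, j)
  · exact this (1, i, j)
  · exact this (2, i, j)

lemma exists_ev [CharZero K] (c : RZ K →ₐ[K] K) : ∃ z, c = ev z := by
  let m : Mat (RZ K) := fun i j => ⟨_, PM_M i j⟩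
  let a : Mat (RZ K) := fun i j => ⟨_, PM_A i j⟩
  let b : Mat (RZ K) := fun i j => ⟨_, PM_B i j⟩
  have hminor : ∀ i j k l, m i j * m k l = m i l * m k j := by
    intro i j k l
    ext z
    obtain ⟨v, w, _, _, h⟩ := z.over
    simp [m, h, vecMulVec_apply]
    ring
  have htr : m 0 0 + m 1 1 + m 2 2 = 1 := by
    ext z
    obtain ⟨v, w, _, hw, h⟩ := z.over
    simp [m, h, vecMulVec_apply]
    simp [dotProduct, Fin.sum_univ_three] at hw
    linear_combination hw
  have heq : ∀ j, m 1 j ^ 2 * m 2 j + m 1 j * m 2 j ^ 2 = m 0 j ^ 3 := by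
    intro j
    ext z
    obtain ⟨v, w, hv, _, h⟩ := z.over
    have := ((nonsing_iff v).mp hv.nonsing).1
    unfold Eqn at this
    simp [m, h, vecMulVec_apply]
    linear_combination (w j) ^ 3 * this
  have hA : m * a * (1 - m) = 0 := by
    ext i j z
    have h1 := congrFun (congrFun z.hA i) j
    have h2 : (ev z).toRingHom.mapMatrix (m * a * (1 - m)) = z.M * z.A * (1 - z.M) := by
      rw [map_mul, map_mul, map_sub, map_one]
      rfl
    have h3 := congrFun (congrFun h2 i) j
    rw [h1] at h3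
    exact h3
  let M : Mat K := c.toRingHom.mapMatrix m
  have hM : ∀ i j, M i j = c (m i j) := fun i j => rfl
  have hminor' : ∀ i j k l, M i j * M k l = M i l * M k j := by
    intro i j k l
    simp only [hM, ← map_mul, hminor i j k l]
  have htr' : M 0 0 + M 1 1 + M 2 2 = 1 := by
    simp only [hM, ← map_add, htr, map_one]
  have heq' : ∀ j, M 1 j ^ 2 * M 2 j + M 1 j * M 2 j ^ 2 = M 0 j ^ 3 := by
    intro j
    simp only [hM, ← map_pow, ← map_mul, ← map_add, heq j]
  have hex : ∃ j, M j j ≠ 0 := by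
    by_contra h
    push Not at h
    rw [h 0, h 1, h 2] at htr'
    simp at htr'
  obtain ⟨j, hj⟩ := hex
  have hov : ∃ P, Over M P := by
    refine ⟨mkPt (fun i => M i j) (heq' j) (fun h => hj (congrFun h j)), fun i => M i j,
      fun i => M j i / M j j, mkPt_rep _ _ _, ?_, ?_⟩
    · simp only [dotProduct, Fin.sum_univ_three]
      field_simp
      linear_combination hminor' j 0 0 j + hminor' j 1 1 j + hminor' j 2 2 j + M j j * htr'
    · ext i k
      simp only [vecMulVec_apply]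
      field_simp
      linear_combination hminor' i k j j
  have hA' : M * c.toRingHom.mapMatrix a * (1 - M) = 0 := by
    have := congrArg c.toRingHom.mapMatrix hA
    rwa [map_mul, map_mul, map_sub, map_one, map_zero] at this
  refine ⟨⟨M, c.toRingHom.mapMatrix a, c.toRingHom.mapMatrix b, hov, hA'⟩, ?_⟩
  ext ⟨f, hf⟩
  induction hf using Algebra.adjoin_induction with
  | mem x hx =>
    obtain ⟨⟨k, i, l⟩, rfl⟩ := hx
    fin_cases k <;> rfl
  | algebraMap r => exact (c.commutes r).trans ((ev _).commutes r).symm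
  | add x y hx' hy' hx hy =>
    have : (⟨x + y, (RZ K).add_mem hx' hy'⟩ : RZ K) = ⟨x, hx'⟩ + ⟨y, hy'⟩ := rfl
    rw [this, map_add, map_add, hx, hy]
  | mul x y hx' hy' hx hy =>
    have : (⟨x * y, (RZ K).mul_mem hx' hy'⟩ : RZ K) = ⟨x, hx'⟩ * ⟨y, hy'⟩ := rfl
    rw [this, map_mul, map_mul, hx, hy]

lemma nullstellensatz [CharZero K] [IsAlgClosed K] {I : Type} [Fintype I] (u : I → RZ K)
    (hu : ∀ z : Z K, ∃ i, (u i).1 z ≠ 0) : ∃ c : I → RZ K, ∑ i, c i * u i = 1 := by
  have : Ideal.span (Set.range u) = ⊤ := by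
    by_contra h
    obtain ⟨m, hm, hle⟩ := Ideal.exists_le_maximal _ h
    let _ : Field (RZ K ⧸ m) := Ideal.Quotient.field m
    have : Module.Finite K (RZ K ⧸ m) := finite_of_finite_type_of_isJacobsonRing K _
    have hb : Function.Bijective (algebraMap K (RZ K ⧸ m)) :=
      IsAlgClosed.algebraMap_bijective_of_isIntegral
    let e : K ≃ₐ[K] (RZ K ⧸ m) := AlgEquiv.ofBijective (Algebra.ofId K _) hb
    obtain ⟨z, hz⟩ := exists_ev (e.symm.toAlgHom.comp (Ideal.Quotient.mkₐ K m))
    obtain ⟨i, hi⟩ := hu z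
    apply hi
    have h1 := DFunLike.congr_fun hz (u i)
    have h2 : Ideal.Quotient.mk m (u i) = 0 :=
      Ideal.Quotient.eq_zero_iff_mem.mpr (hle (Ideal.subset_span ⟨i, rfl⟩))
    rw [ev_apply] at h1
    rw [← h1]
    simp [h2]
  have h1 : (1 : RZ K) ∈ Ideal.span (Set.range u) := by rw [this]; trivial
  exact Ideal.mem_span_range_iff_exists_fun.mp h1

lemma exists_lift [CharZero K] [IsAlgClosed K] (P : Pt K) :
    ∃ s : Z K → Mat K, PM (RZ K) s ∧ ∀ z, Over (s z) (P + z.pt) := by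
  obtain ⟨P1, hP1, hP2⟩ := exists_aux P
  obtain ⟨p, hp⟩ := exists_rep P
  obtain ⟨p1, hp1⟩ := exists_rep P1
  obtain ⟨p2, hp2⟩ := exists_rep (P - P1)
  let G : Bool → (Fin 3 → K) → Fin 3 → K := fun k v =>
    match k with
    | false => (Wc K).addXYZ p v
    | true => (Wc K).addXYZ p2 ((Wc K).addXYZ p1 v)
  have hGmem : ∀ k j i, (fun z : Z K => G k (fun l => z.M l j) i) ∈ RZ K := by
    intro k j i
    have h1 : ∀ (q : Fin 3 → K) i, (fun z : Z K => (Wc K).addXYZ q (fun l => z.M l j) i) ∈ RZ K :=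
      fun q i => addXYZ_mem (p := fun _ => q) (fun l => (RZ K).algebraMap_mem (q l))
        (fun l => PM_M l j) i
    cases k
    · exact h1 p i
    · exact addXYZ_mem (p := fun _ => p2) (fun l => (RZ K).algebraMap_mem (p2 l)) (h1 p1) i
  have hG : ∀ z : Z K, ∃ r, Rep r (P + z.pt) ∧ ∃ l : Bool → Fin 3 → K,
      (∀ k j, G k (fun i => z.M i j) = l k j • r) ∧ ∃ k j, l k j ≠ 0 := by
    intro z
    obtain ⟨r, hr⟩ := exists_rep (P + z.pt)
    obtain ⟨r1, hr1⟩ := exists_rep (P1 + z.pt)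
    obtain ⟨v, w, hv, hw, hM⟩ := z.over
    obtain ⟨l0, hl0, hl0'⟩ := add_rep hp hv hr
    obtain ⟨l1, hl1, hl1'⟩ := add_rep hp1 hv hr1
    obtain ⟨l2, hl2, hl2'⟩ := add_rep (r := r) hp2 hr1 (by rw [← add_assoc, sub_add_cancel]; exact hr)
    have hcol : ∀ j, (fun i => z.M i j) = w j • v := by
      intro j
      funext i
      simp [hM, vecMulVec_apply, mul_comm]
    have hs : ∀ (q u : Fin 3 → K) (a : K), (Wc K).addXYZ q (a • u) = a ^ 2 • (Wc K).addXYZ q u := by
      intro q u a
      have := addXYZ_smul (W' := Wc K) q u 1 a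
      rwa [one_smul, one_mul] at this
    refine ⟨r, hr, fun k j => match k with
      | false => w j ^ 2 * l0
      | true => (w j ^ 2 * l1) ^ 2 * l2, ?_, ?_⟩
    · intro k j
      cases k
      · simp only [G]
        rw [hcol, hs, hl0, smul_smul]
      · simp only [G]
        rw [hcol, hs, hl1, smul_smul, hs, hl2, smul_smul]
    · have : ∃ j, w j ≠ 0 := by
        by_contra h
        push Not at h
        have : w = 0 := funext h
        simp [this] at hw
      obtain ⟨j, hj⟩ := this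
      by_cases hPQ : P = z.pt
      · refine ⟨true, j, mul_ne_zero (pow_ne_zero 2 (mul_ne_zero (pow_ne_zero 2 hj) (hl1' ?_)))
          (hl2' ?_)⟩
        · rw [← hPQ]; exact hP1
        · rw [← hPQ]
          intro h
          apply hP2
          have : P1 + P1 = (P1 + P) - (P - P1) := by abel
          rw [this, ← h, sub_self]
      · exact ⟨false, j, mul_ne_zero (pow_ne_zero 2 hj) (hl0' hPQ)⟩
  let u : Bool × Fin 3 × Fin 3 → RZ K := fun x => ⟨_, hGmem x.1 x.2.1 x.2.2⟩
  obtain ⟨c, hc⟩ := nullstellensatz u (by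
    intro z
    obtain ⟨r, hr, l, hl, k, j, hkj⟩ := hG z
    have : ∃ i, r i ≠ 0 := by
      by_contra h
      push Not at h
      exact hr.ne_zero (funext h)
    obtain ⟨i, hi⟩ := this
    refine ⟨(k, j, i), ?_⟩
    show G k (fun i => z.M i j) i ≠ 0
    rw [hl]
    exact mul_ne_zero hkj hi)
  refine ⟨fun z a b => ∑ k, ∑ j, (u (k, j, a)).1 z * (c (k, j, b)).1 z, ?_, ?_⟩
  · intro a b
    have : (fun z : Z K => ∑ k, ∑ j, (u (k, j, a)).1 z * (c (k, j, b)).1 z) =
        ((∑ k, ∑ j, u (k, j, a) * c (k, j, b) : RZ K) : Z K → K) := by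
      funext z
      simp
    rw [this]
    exact Subtype.property _
  · intro z
    obtain ⟨r, hr, l, hl, -⟩ := hG z
    have hu : ∀ k j a, (u (k, j, a)).1 z = l k j * r a := by
      intro k j a
      show G k (fun i => z.M i j) a = _
      rw [hl]
      rfl
    refine ⟨r, fun b => ∑ k, ∑ j, l k j * (c (k, j, b)).1 z, hr, ?_, ?_⟩
    · have h1 := congrArg (ev z) hc
      rw [map_sum, map_one, Fintype.sum_prod_type] at h1
      simp only [Fintype.sum_prod_type, map_mul, ev_apply, hu] at h1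
      rw [← h1]
      simp only [dotProduct, Finset.sum_mul]
      rw [Finset.sum_comm]
      refine Finset.sum_congr rfl fun k _ => ?_
      rw [Finset.sum_comm]
      refine Finset.sum_congr rfl fun j _ => Finset.sum_congr rfl fun b _ => ?_
      ring
    · ext a b
      simp only [vecMulVec_apply, hu, Finset.mul_sum]
      refine Finset.sum_congr rfl fun k _ => Finset.sum_congr rfl fun j _ => ?_
      ring

end Pool.Agent.H852Z.Jou
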