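import Pool.Agent.H852Z.Jou.Alg

set_option autoImplicit false

namespace Pool.Agent.H852Z.Jou

open WeierstrassCurve WeierstrassCurve.Projective Matrix

variable {K : Type} [Field K]

def Z.setB (z : Z K) (B : Mat K) : Z K := ⟨z.M, z.A, B, z.hM, z.hA⟩

lemma Z.setB_pt (z : Z K) (B : Mat K) : (z.setB B).pt = z.pt := rfl

lemma PZ.setB {T : Type} {S : Subalgebra K (T → K)} {f : T → Z K} {B : T → Mat K} (hf : PZ S f)
    (hB : PM S B) : PZ S (fun t => (f t).setB (B t)) := ⟨hf.1, hf.2.1, hB⟩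

lemma PZ_id : PZ (RZ K) (fun z => z) := ⟨PM_M, PM_A, PM_B⟩

def IsAut (f : Z K → Z K) : Prop :=
  PZ (RZ K) f ∧ ∃ g, PZ (RZ K) g ∧ (∀ z, g (f z) = z) ∧ ∀ z, f (g z) = z

lemma IsAut.comp {f g : Z K → Z K} (hf : IsAut f) (hg : IsAut g) : IsAut (fun z => f (g z)) := by
  obtain ⟨h1, f', h2, h3, h4⟩ := hf
  obtain ⟨k1, g', k2, k3, k4⟩ := hg
  exact ⟨h1.comp k1, fun z => g' (f' z), k2.comp h2, fun z => by simp only [h3, k3],
    fun z => by simp only [k4, h4]⟩

lemma isAut_trans (C : Mat K) : IsAut (fun z : Z K => z.setB (z.B + C)) := by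
  refine ⟨PZ_id.setB (PM_B.add (PM.const C)), fun z => z.setB (z.B - C),
    PZ_id.setB (PM_B.sub (PM.const C)), fun z => ?_, fun z => ?_⟩
  · ext1 <;> simp [Z.setB]
  · ext1 <;> simp [Z.setB]

def Phi1 (s : Z K → Mat K) (hs : ∀ z, ∃ P, Over (s z) P) (z : Z K) : Z K :=
  mkDec (s (z.setB 0)) (hs _) z.B 0

def Phi (s s' : Z K → Mat K) (hs : ∀ z, ∃ P, Over (s z) P) (z : Z K) : Z K :=
  (Phi1 s hs z).setB (enc (s' (Phi1 s hs z)) z.M z.A)

lemma PZ_Phi {s s' : Z K → Mat K} (hs : ∀ z, ∃ P, Over (s z) P) (h : PM (RZ K) s)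
    (h' : PM (RZ K) s') : PZ (RZ K) (Phi s s' hs) := by
  have h1 : PZ (RZ K) (Phi1 s hs) :=
    PZ_mkDec _ (h.comp (PZ_id.setB (PM.const 0))) PM_B (PM.const 0)
  exact h1.setB ((h'.comp h1).enc PM_M PM_A)

variable [CharZero K]

lemma Phi1_pt {s : Z K → Mat K} {P : Pt K} (hs : ∀ z, Over (s z) (P + z.pt)) (z : Z K) :
    (Phi1 s (fun z => ⟨_, hs z⟩) z).pt = P + z.pt :=
  Z.pt_eq _ (over_decM (hs (z.setB 0)) z.B)

lemma Phi_Phi {s s' : Z K → Mat K} {P P' : Pt K} (hP : P' + P = 0)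
    (hs : ∀ z, Over (s z) (P + z.pt)) (hs' : ∀ z, Over (s' z) (P' + z.pt)) (z : Z K) :
    Phi s' s (fun z => ⟨_, hs' z⟩) (Phi s s' (fun z => ⟨_, hs z⟩) z) = z := by
  set z1 := Phi1 s (fun z => ⟨_, hs z⟩) z with hz1
  have h1 : Over (s' z1) (z.setB 0).pt := by
    have := hs' z1
    rwa [hz1, Phi1_pt hs, ← add_assoc, hP, zero_add] at this
  have h2 : Phi1 s' (fun z => ⟨_, hs' z⟩) (Phi s s' (fun z => ⟨_, hs z⟩) z) = z.setB 0 :=
    mkDec_enc ⟨_, h1⟩ (z.setB 0) h1
  unfold Phi at h2 ⊢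
  rw [h2]
  ext1
  · rfl
  · rfl
  · exact enc_dec (hs (z.setB 0)) z.B

variable [IsAlgClosed K]

lemma exists_Phi (P : Pt K) : ∃ F : Z K → Z K, IsAut F ∧ (∀ z, (F z).pt = P + z.pt) ∧
    ∀ z z' : Z K, z'.pt = P + z.pt → ∃ B, (F (z.setB B)).setB z'.B = z' := by
  obtain ⟨s, h1, hs⟩ := exists_lift P
  obtain ⟨s', h1', hs'⟩ := exists_lift (-P)
  refine ⟨Phi s s' (fun z => ⟨_, hs z⟩), ⟨PZ_Phi _ h1 h1', Phi s' s (fun z => ⟨_, hs' z⟩),
    PZ_Phi _ h1' h1, Phi_Phi (neg_add_cancel P) hs hs', Phi_Phi (add_neg_cancel P) hs' hs⟩,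
    fun z => Phi1_pt hs z, fun z z' hz => ⟨enc (s (z.setB 0)) z'.M z'.A, ?_⟩⟩
  have h : Over (s (z.setB 0)) z'.pt := by rw [hz]; exact hs (z.setB 0)
  exact mkDec_enc ⟨_, h⟩ z' h

lemma transitive (z z' : Z K) : ∃ F, IsAut F ∧ F z = z' := by
  obtain ⟨F, hF, -, h⟩ := exists_Phi (z'.pt - z.pt)
  obtain ⟨B, hB⟩ := h z z' (by abel)
  refine ⟨_, (isAut_trans (z'.B - (F (z.setB B)).B)).comp (hF.comp (isAut_trans (B - z.B))), ?_⟩
  simp only [add_sub_cancel]
  exact hB

def secM (t : E0 K) : Mat K := vecMulVec ![t.1.1, t.1.2, 1] ![0, 0, 1]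

omit [IsAlgClosed K] [CharZero K] in
lemma secM_over {t : E0 K} {P : Pt K} (h : Rep ![t.1.1, t.1.2, 1] P) : Over (secM t) P :=
  ⟨_, _, h, by simp, rfl⟩

omit [IsAlgClosed K] in
lemma secM_ex (t : E0 K) : ∃ P, Over (secM t) P :=
  ⟨mkPt ![t.1.1, t.1.2, 1] (by simpa [Eqn] using t.2) (fun h => by simpa using congrFun h 2),
    secM_over (mkPt_rep _ _ _)⟩

omit [IsAlgClosed K] [CharZero K] in
lemma PM_secM : PM (SE K) secM := by
  intro i j
  have h1 : ∀ i, (fun t : E0 K => (![t.1.1, t.1.2, 1] : Fin 3 → K) i) ∈ SE K := by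
    intro i
    fin_cases i
    · exact x_mem
    · exact y_mem
    · exact (SE K).one_mem
  exact (SE K).mul_mem (h1 i) ((SE K).algebraMap_mem (![0, 0, 1] j))

omit [IsAlgClosed K] [CharZero K] in
lemma curve_aux {M0 : E0 K → Mat K} (h0 : ∀ t, ∃ P, Over (M0 t) P) (hM : PM (SE K) M0)
    {l : E0 K → K} (hl : l ∈ SE K) {t1 t2 : E0 K} (h1 : l t1 = 0) (h2 : l t2 = 1) (z1 z2 : Z K)
    (o1 : Over (M0 t1) z1.pt) (o2 : Over (M0 t2) z2.pt) :
    ∃ f : E0 K → Z K, PZ (SE K) f ∧ (∃ t, f t = z1) ∧ ∃ t, f t = z2 := by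
  refine ⟨fun t => mkDec (M0 t) (h0 t)
    (enc (M0 t1) z1.M z1.A + l t • (enc (M0 t2) z2.M z2.A - enc (M0 t1) z1.M z1.A))
    (z1.B + l t • (z2.B - z1.B)), PZ_mkDec h0 hM ((PM.const _).add (PM.smul hl (PM.const _)))
      ((PM.const _).add (PM.smul hl (PM.const _))), ⟨t1, ?_⟩, ⟨t2, ?_⟩⟩
  · simp only [h1, zero_smul, add_zero]
    exact mkDec_enc _ z1 o1
  · simp only [h2, one_smul, add_sub_cancel]
    exact mkDec_enc _ z2 o2

lemma curve_U (z1 z2 : Z K) (h1 : z1.pt ≠ 0) (h2 : z2.pt ≠ 0) :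
    ∃ f : E0 K → Z K, PZ (SE K) f ∧ (∃ t, f t = z1) ∧ ∃ t, f t = z2 := by
  by_cases h : z1.pt = z2.pt
  · obtain ⟨t1, ht1⟩ := exists_E0 (0 : K)
    obtain ⟨t2, ht2⟩ := exists_E0 (1 : K)
    exact curve_aux (M0 := fun _ => z1.M) (fun _ => z1.hM) (PM.const _) x_mem ht1 ht2 z1 z2
      z1.over (h ▸ z1.over)
  · obtain ⟨x1, y1, e1, r1⟩ := exists_affine_rep h1
    obtain ⟨x2, y2, e2, r2⟩ := exists_affine_rep h2
    let t1 : E0 K := ⟨(x1, y1), e1⟩
    let t2 : E0 K := ⟨(x2, y2), e2⟩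
    by_cases hx : x1 = x2
    · have hy : y2 - y1 ≠ 0 := by
        intro hy
        apply h
        have : y1 = y2 := by linear_combination -hy
        rw [hx, this] at r1
        exact r1.unique r2
      refine curve_aux secM_ex PM_secM (l := fun t => (y2 - y1)⁻¹ * (t.1.2 - y1))
        ((SE K).mul_mem ((SE K).algebraMap_mem _) ((SE K).sub_mem y_mem ((SE K).algebraMap_mem y1)))
        (t1 := t1) (t2 := t2) (by simp [t1]) (by simp only [t2]; field_simp) z1 z2
        (secM_over r1) (secM_over r2)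
    · have hx' : x2 - x1 ≠ 0 := fun h => hx (by linear_combination -h)
      refine curve_aux secM_ex PM_secM (l := fun t => (x2 - x1)⁻¹ * (t.1.1 - x1))
        ((SE K).mul_mem ((SE K).algebraMap_mem _) ((SE K).sub_mem x_mem ((SE K).algebraMap_mem x1)))
        (t1 := t1) (t2 := t2) (by simp [t1]) (by simp only [t2]; field_simp) z1 z2
        (secM_over r1) (secM_over r2)

lemma curve_through (z1 z2 : Z K) :
    ∃ f : E0 K → Z K, PZ (SE K) f ∧ (∃ t, f t = z1) ∧ ∃ t, f t = z2 := by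
  obtain ⟨T, h1, h2⟩ := exists_avoid z1.pt z2.pt
  obtain ⟨F, ⟨-, G, hG, hGF, -⟩, hF, -⟩ := exists_Phi T
  obtain ⟨f, hf, ⟨t1, e1⟩, ⟨t2, e2⟩⟩ := curve_U (F z1) (F z2) (by rwa [hF]) (by rwa [hF])
  exact ⟨fun t => G (f t), hG.comp hf, ⟨t1, by simp only [e1, hGF]⟩, ⟨t2, by simp only [e2, hGF]⟩⟩

def base (v : Fin 3 → K) (w : Fin 3 → K) (P : Pt K) (h : Rep v P) (hw : w ⬝ᵥ v = 1) : Z K :=
  ⟨vecMulVec v w, 0, 0, ⟨P, v, w, h, hw, rfl⟩, by simp⟩

noncomputable def zO (K : Type) [Field K] : Z K := base ![0, 1, 0] ![0, 1, 0] 0 rep_zero (by simp)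
noncomputable def zT (K : Type) [Field K] [CharZero K] : Z K :=
  base ![0, 0, 1] ![0, 0, 1] (T1 K) rfl (by simp)

omit [IsAlgClosed K] in
lemma zO_pt : (zO K).pt = 0 := Z.pt_eq _ ⟨_, _, rep_zero, by simp, rfl⟩
omit [IsAlgClosed K] in
lemma zT_pt : (zT K).pt = T1 K := Z.pt_eq _ ⟨![0, 0, 1], ![0, 0, 1], rfl, by simp, rfl⟩

instance : IsDomain (RZ K) := by
  have : Nontrivial (RZ K) := ⟨0, 1, fun h => by simpa using congrArg (ev (zO K)) h⟩
  have : NoZeroDivisors (RZ K) := by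
    constructor
    intro f g h
    by_contra hc
    push Not at hc
    have h1 : ∃ z, f.1 z ≠ 0 := by
      by_contra h'
      push Not at h'
      exact hc.1 (Subtype.ext (funext h'))
    have h2 : ∃ z, g.1 z ≠ 0 := by
      by_contra h'
      push Not at h'
      exact hc.2 (Subtype.ext (funext h'))
    obtain ⟨z1, h1⟩ := h1
    obtain ⟨z2, h2⟩ := h2
    obtain ⟨c, hc, ⟨t1, rfl⟩, ⟨t2, rfl⟩⟩ := curve_through z1 z2
    rcases SE_domain (hc.comp_mem f.2) (hc.comp_mem g.2) (fun t => by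
      simpa using congrArg (ev (c t)) h) with h0 | h0
    · exact h1 (h0 t1)
    · exact h2 (h0 t2)
  exact NoZeroDivisors.to_isDomain _

lemma unit_const (u : RZ K) (hu : IsUnit u) : ∃ c : K, algebraMap K (RZ K) c = u := by
  refine ⟨u.1 (zO K), Subtype.ext (funext fun z => ?_)⟩
  obtain ⟨c, hc, ⟨t1, h1⟩, ⟨t2, h2⟩⟩ := curve_through (zO K) z
  have := SE_unit (hc.comp_mem u.2) (fun t => (hu.map (ev (c t))).ne_zero) t1 t2
  simp only [h1, h2] at this
  exact this

/-- polynomial functions on the line -/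
noncomputable def SL (K : Type) [Field K] : Subalgebra K (K → K) :=
  (Polynomial.aeval (R := K) (fun s : K => s)).range

omit [CharZero K] [IsAlgClosed K] in
lemma mem_SL {f : K → K} : f ∈ SL K ↔ ∃ p : Polynomial K, ∀ s, f s = p.eval s := by
  have : ∀ (p : Polynomial K) (s : K), (Polynomial.aeval (R := K) (fun s : K => s) p) s = p.eval s := by
    intro p s
    have := Polynomial.aeval_algHom_apply (Pi.evalAlgHom K (fun _ : K => K) s) (fun s : K => s) p
    simpa using this.symm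
  constructor
  · rintro ⟨p, rfl⟩
    exact ⟨p, fun s => this p s⟩
  · rintro ⟨p, hp⟩
    exact ⟨p, funext fun s => (this p s).trans (hp s).symm⟩

def line (z : Z K) (C : Mat K) (s : K) : Z K := z.setB (s • C)

omit [CharZero K] [IsAlgClosed K] in
lemma PZ_line (z : Z K) (C : Mat K) : PZ (SL K) (line z C) :=
  ⟨PM.const _, PM.const _, PM.smul (mem_SL.mpr ⟨Polynomial.X, by simp⟩) (PM.const C)⟩

omit [IsAlgClosed K] in
lemma pt_const {f : K → Z K} (hf : PM (SL K) (fun s => (f s).M)) : (f 0).pt = (f 1).pt := by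
  choose m hm' using fun i j => mem_SL.mp (hf i j)
  have hm : ∀ i j s, (f s).M i j = (m i j).eval s := hm'
  obtain ⟨v0, w0, hv0, hw0, hM0⟩ := (f 0).over
  have : ∃ j, w0 j ≠ 0 := by
    by_contra h
    push Not at h
    have : w0 = 0 := funext h
    simp [this] at hw0
  obtain ⟨j, hj⟩ := this
  have heq : Eqn (fun i => m i j) := by
    apply Polynomial.funext
    intro s
    obtain ⟨v, w, hv, _, h⟩ := (f s).over
    have := ((nonsing_iff v).mp hv.nonsing).1
    unfold Eqn at this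
    simp only [Polynomial.eval_add, Polynomial.eval_mul, Polynomial.eval_pow, ← hm, h,
      vecMulVec_apply]
    linear_combination (w j) ^ 3 * this
  obtain ⟨g, v, hgv⟩ := poly_sol _ heq
  have hcol : ∀ s i, (f s).M i j = g.eval s * v i := by
    intro s i
    rw [hm, hgv i]
    simp
  have hne : ∃ i, (f 0).M i j ≠ 0 := by
    by_contra h
    push Not at h
    apply hv0.ne_zero
    funext i
    have := h i
    rw [hM0, vecMulVec_apply] at this
    exact (mul_eq_zero.mp this).resolve_right hj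
  obtain ⟨i0, hi0⟩ := hne
  rw [hcol] at hi0
  have hg : g ≠ 0 := by
    rintro rfl
    simp at hi0
  have hv : v ≠ 0 := by
    rintro rfl
    simp at hi0
  have hfix : ∀ s, (f s).M *ᵥ v = v := by
    have key : ∀ i, g * (∑ k, m i k * Polynomial.C (v k) - Polynomial.C (v i)) = 0 := by
      intro i
      apply Polynomial.funext
      intro s
      have h1 := congrFun (congrFun ((f s).over.mul (f s).over) i) j
      simp only [Matrix.mul_apply, Fin.sum_univ_three] at h1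
      have e0 := hcol s 0
      have e1 := hcol s 1
      have e2 := hcol s 2
      have ei := hcol s i
      simp only [Fin.sum_univ_three, Polynomial.eval_mul, Polynomial.eval_sub, Polynomial.eval_add,
        Polynomial.eval_C, ← hm, Polynomial.eval_zero]
      linear_combination h1 - (f s).M i 0 * e0 - (f s).M i 1 * e1 - (f s).M i 2 * e2 + ei
    intro s
    funext i
    have := congrArg (Polynomial.eval s) ((mul_eq_zero.mp (key i)).resolve_left hg)
    simp only [Fin.sum_univ_three, Polynomial.eval_mul, Polynomial.eval_sub, Polynomial.eval_add,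
      Polynomial.eval_C, ← hm, Polynomial.eval_zero] at this
    simp only [mulVec, dotProduct, Fin.sum_univ_three]
    linear_combination this
  exact ((f 0).over.of_fixed hv (hfix 0)).unique ((f 1).over.of_fixed hv (hfix 1))

omit [IsAlgClosed K] in
lemma not_two (phi : RZ K →ₐ[K] RZ K) (C : Mat K) {z q0 q1 : Z K}
    (h0 : (ev (line z C 0)).comp phi = ev q0) (h1 : (ev (line z C 1)).comp phi = ev q1) :
    q0.pt = q1.pt := by
  choose f hf using fun s => exists_ev ((ev (line z C s)).comp phi)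
  have e0 : f 0 = q0 := ev_injective ((hf 0).symm.trans h0)
  have e1 : f 1 = q1 := ev_injective ((hf 1).symm.trans h1)
  rw [← e0, ← e1]
  apply pt_const
  intro i j
  have : (fun s => (f s).M i j) = fun s => (phi ⟨_, PM_M i j⟩).1 (line z C s) := by
    funext s
    exact (DFunLike.congr_fun (hf s) ⟨_, PM_M i j⟩).symm
  rw [this]
  exact (PZ_line z C).comp_mem (phi _).2

noncomputable def pull {f : Z K → Z K} (hf : PZ (RZ K) f) : RZ K →ₐ[K] RZ K where
  toFun g := ⟨fun z => g.1 (f z), hf.comp_mem g.2⟩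
  map_one' := rfl
  map_mul' _ _ := rfl
  map_zero' := rfl
  map_add' _ _ := rfl
  commutes' _ := rfl

lemma alg_transitive (a b : RZ K →ₐ[K] K) : ∃ e : RZ K ≃ₐ[K] RZ K, a.comp e.toAlgHom = b := by
  obtain ⟨z, rfl⟩ := exists_ev a
  obtain ⟨z', rfl⟩ := exists_ev b
  obtain ⟨F, ⟨hF, G, hG, h1, h2⟩, rfl⟩ := transitive z z'
  refine ⟨AlgEquiv.ofAlgHom (pull hF) (pull hG) ?_ ?_, ?_⟩
  · ext g z
    exact congrArg g.1 (h1 z)
  · ext g z
    exact congrArg g.1 (h2 z)
  · ext g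
    rfl

lemma two_le_dim : (2 : WithBot ℕ∞) ≤ ringKrullDim (RZ K) := by
  let E : Mat K := fun i j => if i = 0 ∧ j = 0 then 1 else 0
  let p1 : Ideal (RZ K) :=
    { carrier := {f | ∀ s, f.1 (line (zO K) E s) = 0}
      add_mem' := fun {a b} ha hb s => by
        show a.1 _ + b.1 _ = 0
        rw [ha s, hb s, add_zero]
      zero_mem' := fun s => rfl
      smul_mem' := fun c {a} ha s => by
        show c.1 _ * a.1 _ = 0
        rw [ha s, mul_zero] }
  have hp1 : p1.IsPrime := by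
    constructor
    · rw [Ideal.ne_top_iff_one]
      intro h
      exact one_ne_zero (h 0)
    · intro a b hab
      obtain ⟨p, hp⟩ := mem_SL.mp ((PZ_line (zO K) E).comp_mem a.2)
      obtain ⟨q, hq⟩ := mem_SL.mp ((PZ_line (zO K) E).comp_mem b.2)
      have : p * q = 0 := by
        apply Polynomial.funext
        intro s
        rw [Polynomial.eval_mul, ← hp, ← hq, Polynomial.eval_zero]
        exact hab s
      rcases mul_eq_zero.mp this with h | h
      · left
        intro s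
        rw [hp, h, Polynomial.eval_zero]
      · right
        intro s
        rw [hq, h, Polynomial.eval_zero]
  let P0 : PrimeSpectrum (RZ K) := ⟨⊥, Ideal.isPrime_bot⟩
  let P1 : PrimeSpectrum (RZ K) := ⟨p1, hp1⟩
  let P2 : PrimeSpectrum (RZ K) := ⟨RingHom.ker (ev (line (zO K) E 0)), RingHom.ker_isPrime _⟩
  have h01 : P0 < P1 := by
    refine lt_of_le_of_ne (show (⊥ : Ideal (RZ K)) ≤ p1 from bot_le) fun h => ?_
    have h1 : (⟨_, PM_B 0 1⟩ : RZ K) ∈ P1.asIdeal := fun s => by simp [line, Z.setB, E]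
    rw [← h] at h1
    have h2 := congrArg (ev ((zO K).setB (fun _ _ => 1))) (Ideal.mem_bot.mp h1)
    simp [Z.setB] at h2
  have h12 : P1 < P2 := by
    refine lt_of_le_of_ne (show p1 ≤ RingHom.ker _ from fun f hf => hf 0) fun h => ?_
    have h1 : (⟨_, PM_B 0 0⟩ : RZ K) ∈ P2.asIdeal := by
      show (line (zO K) E 0).B 0 0 = 0
      simp [line, Z.setB]
    rw [← h] at h1
    have h2 := h1 1
    simp [line, Z.setB, E] at h2
  have := Order.LTSeries.length_le_krullDim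
    (((RelSeries.singleton _ P0).snoc P1 h01).snoc P2 (by simpa using h12))
  simpa [ringKrullDim] using this

end Pool.Agent.H852Z.Jou
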