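import Mathlib

set_option autoImplicit false

namespace Pool.Agent.H852Z.Jou

open WeierstrassCurve WeierstrassCurve.Projective Polynomial

/-- The curve `y^2 z + y z^2 = x^3`. -/
def Wc (R : Type) [CommRing R] : WeierstrassCurve.Projective R := ⟨0, 0, 1, 0, 0⟩

lemma Wc_map {R S : Type} [CommRing R] [CommRing S] (f : R →+* S) : (Wc R).map f = Wc S := by
  ext <;> simp [Wc, WeierstrassCurve.map]

def Eqn {R : Type} [CommRing R] (v : Fin 3 → R) : Prop :=
  v 1 ^ 2 * v 2 + v 1 * v 2 ^ 2 = v 0 ^ 3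

variable {K : Type} [Field K]

lemma nonsing_iff [CharZero K] (v : Fin 3 → K) : (Wc K).Nonsingular v ↔ Eqn v ∧ v ≠ 0 := by
  rw [nonsingular_iff, equation_iff]
  simp only [Wc, Eqn]
  constructor
  · rintro ⟨h1, h2⟩
    refine ⟨by linear_combination h1, ?_⟩
    rintro rfl
    simp at h2
  · rintro ⟨h1, h2⟩
    refine ⟨by linear_combination h1, ?_⟩
    by_contra h
    push Not at h
    obtain ⟨ha, hb, hc⟩ := h
    apply h2
    have h0 : v 0 = 0 := by
      have : v 0 ^ 2 = 0 := by linear_combination (-1/3 : K) * ha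
      exact pow_eq_zero_iff (two_ne_zero) |>.mp this
    have hb' : v 2 * (2 * v 1 + v 2) = 0 := by linear_combination hb
    have hc' : v 1 * (v 1 + 2 * v 2) = 0 := by linear_combination hc
    have h12 : v 1 = 0 ∧ v 2 = 0 := by
      rcases mul_eq_zero.mp hb' with h | h
      · rcases mul_eq_zero.mp hc' with h' | h'
        · exact ⟨h', h⟩
        · exact ⟨by linear_combination h' - 2 * h, h⟩
      · rcases mul_eq_zero.mp hc' with h' | h'
        · exact ⟨h', by linear_combination h - 2 * h'⟩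
        · exact ⟨by linear_combination (2/3 : K) * h - (1/3 : K) * h',
            by linear_combination (-1/3 : K) * h + (2/3 : K) * h'⟩
    funext i
    fin_cases i
    · exact h0
    · exact h12.1
    · exact h12.2

abbrev Pt (K : Type) [Field K] := (Wc K).Point

/-- `v` represents the point `P`. -/
def Rep (v : Fin 3 → K) (P : Pt K) : Prop := P.point = ⟦v⟧

lemma exists_rep (P : Pt K) : ∃ v, Rep v P := by
  obtain ⟨v, hv⟩ := Quotient.exists_rep P.point
  exact ⟨v, hv.symm⟩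

lemma Rep.nonsing {v : Fin 3 → K} {P : Pt K} (h : Rep v P) : (Wc K).Nonsingular v := by
  have := P.nonsingular
  rw [h] at this
  exact this

lemma Rep.smul {v : Fin 3 → K} {P : Pt K} (h : Rep v P) {a : K} (ha : a ≠ 0) : Rep (a • v) P := by
  unfold Rep at *
  rw [h, smul_eq v (isUnit_iff_ne_zero.mpr ha)]

lemma Rep.unique {v : Fin 3 → K} {P Q : Pt K} (h : Rep v P) (h' : Rep v Q) : P = Q := by
  ext
  rw [h, h']

lemma Rep.exists_smul {v w : Fin 3 → K} {P : Pt K} (h : Rep v P) (h' : Rep w P) :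
    ∃ a : K, a ≠ 0 ∧ v = a • w := by
  have : (⟦v⟧ : PointClass K) = ⟦w⟧ := h.symm.trans h'
  obtain ⟨u, hu⟩ := Quotient.eq.mp this
  exact ⟨u, u.ne_zero, hu.symm⟩

def mkPt [CharZero K] (v : Fin 3 → K) (h : Eqn v) (h0 : v ≠ 0) : Pt K :=
  ⟨(nonsingularLift_iff v).mpr ((nonsing_iff v).mpr ⟨h, h0⟩)⟩

lemma mkPt_rep [CharZero K] (v : Fin 3 → K) (h : Eqn v) (h0 : v ≠ 0) : Rep v (mkPt v h h0) := rfl

lemma add_rep {p q r : Fin 3 → K} {P Q : Pt K} (hp : Rep p P) (hq : Rep q Q)
    (hr : Rep r (P + Q)) : ∃ l : K, (Wc K).addXYZ p q = l • r ∧ (P ≠ Q → l ≠ 0) := by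
  by_cases h : P = Q
  · subst h
    obtain ⟨a, _, rfl⟩ := hp.exists_smul hq
    refine ⟨0, ?_, fun h => (h rfl).elim⟩
    have := addXYZ_smul (W' := Wc K) q q a 1
    rw [one_smul] at this
    rw [this, addXYZ_self]
    funext i
    fin_cases i <;> simp
  · have hne : ¬ p ≈ q := by
      intro hpq
      apply h
      ext
      rw [hp, hq]
      exact Quotient.sound hpq
    have : Rep ((Wc K).addXYZ p q) (P + Q) := by
      unfold Rep
      rw [Point.add_point, hp, hq, addMap_eq, add_of_not_equiv hne]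
    obtain ⟨a, ha, h2⟩ := this.exists_smul hr
    exact ⟨a, h2, fun _ => ha⟩

section three
variable [CharZero K]

def T1 (K : Type) [Field K] [CharZero K] : Pt K :=
  mkPt ![0, 0, 1] (by simp [Eqn]) (by intro h; simpa using congrFun h 2)

def T2 (K : Type) [Field K] [CharZero K] : Pt K :=
  mkPt ![0, -1, 1] (by simp [Eqn]) (by intro h; simpa using congrFun h 2)

omit [CharZero K] in
lemma rep_zero : Rep ![0, 1, 0] (0 : Pt K) := rfl

lemma T1_ne_zero : T1 K ≠ 0 := by
  intro h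
  have h1 : Rep ![0, 0, 1] (T1 K) := rfl
  rw [h] at h1
  obtain ⟨a, _, ha⟩ := h1.exists_smul rep_zero
  simpa using congrFun ha 2

lemma T2_ne_zero : T2 K ≠ 0 := by
  intro h
  have h1 : Rep ![0, -1, 1] (T2 K) := rfl
  rw [h] at h1
  obtain ⟨a, _, ha⟩ := h1.exists_smul rep_zero
  simpa using congrFun ha 2

lemma T1_ne_T2 : T1 K ≠ T2 K := by
  intro h
  have h1 : Rep ![0, 0, 1] (T1 K) := rfl
  have h2 : Rep ![0, -1, 1] (T2 K) := rfl
  rw [h] at h1
  obtain ⟨a, ha0, ha⟩ := h1.exists_smul h2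
  have := congrFun ha 1
  simp at this
  exact ha0 this

lemma neg_T1 : -T1 K = T2 K := by
  ext
  rw [Point.neg_point]
  have h1 : (T1 K).point = ⟦![0, 0, 1]⟧ := rfl
  have h2 : (T2 K).point = ⟦![0, -1, 1]⟧ := rfl
  rw [h1, h2, negMap_eq]
  congr 1
  funext i
  fin_cases i <;> simp [Projective.neg, negY, Wc]

lemma exists_aux (P : Pt K) : ∃ P1 : Pt K, P1 ≠ P ∧ P1 + P1 ≠ 0 := by
  have h1 : T1 K + T1 K ≠ 0 := by
    intro h
    apply T1_ne_T2 (K := K)
    rw [← neg_T1]
    exact eq_neg_of_add_eq_zero_left h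
  by_cases h : T1 K = P
  · refine ⟨T2 K, fun h' => T1_ne_T2 (h.trans h'.symm), ?_⟩
    rw [← neg_T1, ← neg_add]
    exact neg_ne_zero.mpr h1
  · exact ⟨T1 K, h, h1⟩

lemma exists_avoid (P Q : Pt K) : ∃ T : Pt K, T + P ≠ 0 ∧ T + Q ≠ 0 := by
  by_contra h
  push Not at h
  have h0 := h 0
  have h1 := h (T1 K)
  have h2 := h (T2 K)
  have e1 := T1_ne_zero (K := K)
  have e2 := T2_ne_zero (K := K)
  have e3 := T1_ne_T2 (K := K)
  have key : ∀ {A B C : Pt K}, A + C = 0 → B + C = 0 → A = B := fun ha hb =>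
    add_right_cancel (ha.trans hb.symm)
  by_cases a0 : (0 : Pt K) + P = 0
  · by_cases a1 : T1 K + P = 0
    · exact e1 (key a1 a0)
    · by_cases a2 : T2 K + P = 0
      · exact e2 (key a2 a0)
      · exact e3 (key (h1 a1) (h2 a2))
  · by_cases a1 : T1 K + P = 0
    · by_cases a2 : T2 K + P = 0
      · exact e3 (key a1 a2)
      · exact e2 (key (h2 a2) (h0 a0))
    · exact e1 (key (h1 a1) (h0 a0))

lemma exists_affine_rep {P : Pt K} (hP : P ≠ 0) : ∃ x y : K, y ^ 2 + y = x ^ 3 ∧ Rep ![x, y, 1] P := by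
  obtain ⟨v, hv⟩ := exists_rep P
  have hn := hv.nonsing
  by_cases hz : v 2 = 0
  · exfalso
    apply hP
    ext
    rw [hv]
    exact Quotient.sound (equiv_zero_of_Z_eq_zero hn hz)
  · have h2 := hv.smul (inv_ne_zero hz)
    have h3 : (v 2)⁻¹ • v = ![(v 2)⁻¹ * v 0, (v 2)⁻¹ * v 1, 1] := by
      funext i
      fin_cases i <;> simp [hz]
    rw [h3] at h2
    refine ⟨_, _, ?_, h2⟩
    have := ((nonsing_iff _).mp h2.nonsing).1
    simpa [Eqn] using this

end three

/-- Polynomial solutions of the curve equation are proportional to a constant vector. -/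
lemma poly_sol [CharZero K] (c : Fin 3 → K[X]) (h : Eqn c) :
    ∃ (g : K[X]) (v : Fin 3 → K), ∀ i, c i = g * C (v i) := by
  classical
  unfold Eqn at h
  obtain ⟨Y, Z, hY, hZ, hYZ⟩ := extract_gcd (c 1) (c 2)
  set g := gcd (c 1) (c 2) with hg
  by_cases hg0 : g = 0
  · refine ⟨0, 0, fun i => ?_⟩
    have h1 : c 1 = 0 := by rw [hY, hg0, zero_mul]
    have h2 : c 2 = 0 := by rw [hZ, hg0, zero_mul]
    have h0 : c 0 = 0 := by
      rw [h1, h2] at h
      have : c 0 ^ 3 = 0 := by rw [← h]; ring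
      exact pow_eq_zero_iff (three_ne_zero) |>.mp this
    fin_cases i <;> simp [h0, h1, h2]
  have hdvd : g ∣ c 0 := by
    have : g ^ 3 ∣ c 0 ^ 3 := ⟨Y ^ 2 * Z + Y * Z ^ 2, by rw [← h, hY, hZ]; ring⟩
    exact (IsIntegrallyClosed.pow_dvd_pow_iff (three_ne_zero)).mp this
  obtain ⟨X', hX⟩ := hdvd
  have hcop : IsCoprime Y Z := (gcd_isUnit_iff Y Z).mp hYZ
  have heq : Y * Z * (-(Y + Z)) = -X' ^ 3 := by
    have : g ^ 3 * (Y * Z * (-(Y + Z))) = g ^ 3 * (-X' ^ 3) := by
      have h' := h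
      rw [hX, hY, hZ] at h'
      linear_combination -h'
    exact mul_left_cancel₀ (pow_ne_zero 3 hg0) this
  have hconst : Y.natDegree = 0 ∧ Z.natDegree = 0 := by
    by_cases hY0 : Y = 0
    · rw [hY0] at hcop
      exact ⟨by simp [hY0], natDegree_eq_zero_of_isUnit (isCoprime_zero_left.mp hcop)⟩
    by_cases hZ0 : Z = 0
    · rw [hZ0] at hcop
      exact ⟨natDegree_eq_zero_of_isUnit (isCoprime_zero_right.mp hcop), by simp [hZ0]⟩
    by_cases hS0 : -(Y + Z) = 0
    · have hZY : Z = -Y := by linear_combination -hS0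
      rw [hZY] at hcop
      have hu : IsUnit Y := isCoprime_self.mp ((IsCoprime.neg_right_iff _ _).mp hcop)
      have := natDegree_eq_zero_of_isUnit hu
      exact ⟨this, by rw [hZY, natDegree_neg]; exact this⟩
    rcases Polynomial.abc hY0 hZ0 hS0 hcop (by ring) with ⟨a1, a2, a3⟩ | ⟨a1, a2, _⟩
    · exfalso
      have hX0 : X' ≠ 0 := by
        rintro rfl
        have : Y * Z * (-(Y + Z)) = 0 := by rw [heq]; ring
        exact (mul_ne_zero (mul_ne_zero hY0 hZ0) hS0) this
      have hdeg : (Y * Z * (-(Y + Z))).natDegree = 3 * X'.natDegree := by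
        rw [heq, natDegree_neg, natDegree_pow]
      rw [natDegree_mul (mul_ne_zero hY0 hZ0) hS0, natDegree_mul hY0 hZ0] at hdeg
      have hrad : (UniqueFactorizationMonoid.radical (Y * Z * (-(Y + Z)))).natDegree ≤ X'.natDegree := by
        rw [heq, UniqueFactorizationDomain.radical_neg,
          UniqueFactorizationMonoid.radical_pow X' (three_ne_zero)]
        exact natDegree_le_of_dvd UniqueFactorizationMonoid.radical_dvd_self hX0
      omega
    · exact ⟨Polynomial.derivative_eq_zero.mp a1, Polynomial.derivative_eq_zero.mp a2⟩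
  have hX'0 : X'.natDegree = 0 := by
    have h1 : (Y * Z * (-(Y + Z))).natDegree = 0 := by
      rw [eq_C_of_natDegree_eq_zero hconst.1, eq_C_of_natDegree_eq_zero hconst.2, ← C_add, ← C_neg,
        ← C_mul, ← C_mul, natDegree_C]
    rw [heq, natDegree_neg, natDegree_pow] at h1
    omega
  refine ⟨g, ![X'.coeff 0, Y.coeff 0, Z.coeff 0], fun i => ?_⟩
  fin_cases i
  · simp only [Fin.zero_eta, Matrix.cons_val_zero]
    rw [← eq_C_of_natDegree_eq_zero hX'0]; exact hX
  · simp only [Fin.mk_one, Matrix.cons_val_one, Matrix.cons_val_zero]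
    rw [← eq_C_of_natDegree_eq_zero hconst.1]; exact hY
  · simp only [Fin.reduceFinMk, Matrix.cons_val]
    rw [← eq_C_of_natDegree_eq_zero hconst.2]; exact hZ

/-- The affine part of the curve. -/
def E0 (K : Type) [Field K] : Type := {p : K × K // p.2 ^ 2 + p.2 = p.1 ^ 3}

/-- Polynomial functions on the affine part. -/
def SE (K : Type) [Field K] : Subalgebra K (E0 K → K) where
  carrier := {f | ∃ p q : K[X], ∀ t : E0 K, f t = p.eval t.1.1 + q.eval t.1.1 * t.1.2}
  mul_mem' := by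
    rintro f g ⟨p, q, h⟩ ⟨p', q', h'⟩
    refine ⟨p * p' + q * q' * X ^ 3, p * q' + q * p' - q * q', fun t => ?_⟩
    have := t.2
    simp only [Pi.mul_apply, h, h', eval_add, eval_mul, eval_sub, eval_pow, eval_X]
    linear_combination (eval t.1.1 q * eval t.1.1 q') * this
  add_mem' := by
    rintro f g ⟨p, q, h⟩ ⟨p', q', h'⟩
    refine ⟨p + p', q + q', fun t => ?_⟩
    simp only [Pi.add_apply, h, h', eval_add]
    ring
  algebraMap_mem' := fun c => ⟨C c, 0, fun t => by simp⟩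

lemma x_mem : (fun t : E0 K => t.1.1) ∈ SE K := ⟨X, 0, fun t => by simp⟩
lemma y_mem : (fun t : E0 K => t.1.2) ∈ SE K := ⟨0, 1, fun t => by simp⟩

lemma exists_E0 [IsAlgClosed K] (x : K) : ∃ t : E0 K, t.1.1 = x := by
  obtain ⟨y, hy⟩ := IsAlgClosed.exists_root (k := K) (X ^ 2 + X - C (x ^ 3)) (by
    have : (X ^ 2 + X - C (x ^ 3) : K[X]).degree = 2 := by compute_degree!
    rw [this]; norm_num)
  simp [IsRoot] at hy
  exact ⟨⟨(x, y), by linear_combination hy⟩, rfl⟩

def conj (t : E0 K) : E0 K := ⟨(t.1.1, -1 - t.1.2), by have := t.2; linear_combination this⟩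

noncomputable def nrm (p q : K[X]) : K[X] := p ^ 2 - p * q - q ^ 2 * X ^ 3

lemma nrm_degree (p q : K[X]) : (nrm p q).degree = max (2 • p.degree) (2 • q.degree + 3) := by
  have h := Affine.CoordinateRing.degree_norm_smul_basis (W' := (Wc K).toAffine) p q
  rw [Affine.CoordinateRing.norm_smul_basis] at h
  rw [← h]
  congr 1
  simp [nrm, Wc]

lemma nrm_eval {f : E0 K → K} {p q : K[X]}
    (h : ∀ t : E0 K, f t = p.eval t.1.1 + q.eval t.1.1 * t.1.2) (t : E0 K) :
    (nrm p q).eval t.1.1 = f t * f (conj t) := by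
  have := t.2
  simp only [h, nrm, conj, eval_sub, eval_mul, eval_pow, eval_X]
  linear_combination (eval t.1.1 q ^ 2) * this

lemma nrm_eq_zero {p q : K[X]} (h : nrm p q = 0) : p = 0 ∧ q = 0 := by
  have := nrm_degree p q
  rw [h, degree_zero, eq_comm, max_eq_bot] at this
  constructor
  · by_contra hp
    rw [degree_eq_natDegree hp] at this
    have h1 := this.1
    rw [two_nsmul, ← Nat.cast_add] at h1
    exact WithBot.natCast_ne_bot _ h1
  · by_contra hq
    rw [degree_eq_natDegree hq] at this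
    have h1 := this.2
    rw [two_nsmul, ← Nat.cast_add, ← Nat.cast_ofNat (n := 3), ← Nat.cast_add] at h1
    exact WithBot.natCast_ne_bot _ h1

lemma SE_domain [IsAlgClosed K] {f g : E0 K → K} (hf : f ∈ SE K) (hg : g ∈ SE K)
    (h : ∀ t, f t * g t = 0) : (∀ t, f t = 0) ∨ ∀ t, g t = 0 := by
  obtain ⟨p, q, hpq⟩ := hf
  obtain ⟨p', q', hpq'⟩ := hg
  have : nrm p q * nrm p' q' = 0 := by
    apply Polynomial.funext
    intro x
    obtain ⟨t, rfl⟩ := exists_E0 x
    rw [eval_mul, nrm_eval hpq, nrm_eval hpq', eval_zero]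
    linear_combination (f (conj t) * g (conj t)) * h t
  rcases mul_eq_zero.mp this with h0 | h0
  · left
    intro t
    simp [hpq, (nrm_eq_zero h0).1, (nrm_eq_zero h0).2]
  · right
    intro t
    simp [hpq', (nrm_eq_zero h0).1, (nrm_eq_zero h0).2]

lemma SE_unit [IsAlgClosed K] {f : E0 K → K} (hf : f ∈ SE K) (h : ∀ t, f t ≠ 0) (t t' : E0 K) :
    f t = f t' := by
  obtain ⟨p, q, hpq⟩ := hf
  have hdeg : (nrm p q).degree = 0 := by
    by_contra hd
    obtain ⟨x, hx⟩ := IsAlgClosed.exists_root _ hd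
    obtain ⟨s, rfl⟩ := exists_E0 x
    rw [IsRoot, nrm_eval hpq] at hx
    exact mul_ne_zero (h s) (h (conj s)) hx
  rw [nrm_degree] at hdeg
  have hq : q = 0 := by
    by_contra hq
    have h3 := (le_max_right (2 • p.degree) (2 • q.degree + 3)).trans hdeg.le
    rw [degree_eq_natDegree hq] at h3
    have : ((2 * q.natDegree + 3 : ℕ) : WithBot ℕ) ≤ ((0 : ℕ) : WithBot ℕ) := by
      simpa [two_nsmul, two_mul] using h3
    have : 2 * q.natDegree + 3 ≤ 0 := by exact_mod_cast this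
    omega
  have hp : p.natDegree = 0 := by
    by_cases hp : p = 0
    · simp [hp]
    have h3 := (le_max_left (2 • p.degree) (2 • q.degree + 3)).trans hdeg.le
    rw [degree_eq_natDegree hp] at h3
    have : ((2 * p.natDegree : ℕ) : WithBot ℕ) ≤ ((0 : ℕ) : WithBot ℕ) := by
      simpa [two_nsmul, two_mul] using h3
    have : 2 * p.natDegree ≤ 0 := by exact_mod_cast this
    omega
  rw [hpq, hpq, hq, eq_C_of_natDegree_eq_zero hp]
  simp

end Pool.Agent.H852Z.Jou
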